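import Mathlib

/-!
# A recursion gap

Let `S i` be non-empty finite sets of successors and `a i 0 = 1`,
`a i (n+1) = (∑ j ∈ S i, a j n) ^ d`. The exponential rate of `∑ i, a i n` is never slightly below
`(1 - 1/d²) log 2`.
-/

set_option autoImplicit false

open Filter Topology Finset

namespace Pool.Agent.KS6_18.TGap

variable {α : Type*} [Fintype α] [DecidableEq α]

/-- The states reachable by a path of length exactly `m`. -/
def R (S : α → Finset α) : ℕ → Finset α
  | 0 => Finset.univ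
  | m + 1 => (R S m).biUnion S

theorem mem_R_succ {S : α → Finset α} {m : ℕ} {x : α} :
    x ∈ R S (m + 1) ↔ ∃ i ∈ R S m, x ∈ S i := by
  simp [R, Finset.mem_biUnion]

theorem R_succ_subset (S : α → Finset α) (m : ℕ) : R S (m + 1) ⊆ R S m := by
  induction m with
  | zero => exact Finset.subset_univ _
  | succ m ih =>
    intro x hx
    rw [mem_R_succ] at hx ⊢
    obtain ⟨i, hi, hx⟩ := hx
    exact ⟨i, ih hi, hx⟩

theorem R_stab (S : α → Finset α) : ∃ m₀, ∀ m, m₀ ≤ m → R S m = R S m₀ := by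
  have hanti : Antitone (R S) := antitone_nat_of_succ_le (R_succ_subset S)
  obtain ⟨c, ⟨m₀, rfl⟩, hm₀⟩ := wellFounded_lt.has_min (Set.range fun m => (R S m).card)
    ⟨_, ⟨0, rfl⟩⟩
  refine ⟨m₀, fun m hm => ?_⟩
  refine Finset.eq_of_subset_of_card_le (hanti hm) ?_
  exact not_lt.1 (hm₀ _ ⟨m, rfl⟩)

section rec

variable {S : α → Finset α} {a : α → ℕ → ℕ} {d : ℕ}

omit [Fintype α] [DecidableEq α] in
theorem pos (hS : ∀ i, (S i).Nonempty) (h0 : ∀ i, a i 0 = 1)
    (hrec : ∀ i n, a i (n + 1) = (∑ j ∈ S i, a j n) ^ d) (i : α) (n : ℕ) : 1 ≤ a i n := by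
  induction n generalizing i with
  | zero => rw [h0]
  | succ n ih =>
    rw [hrec]
    apply Nat.one_le_pow
    obtain ⟨j, hj⟩ := hS i
    exact lt_of_lt_of_le (ih j) (Finset.single_le_sum (f := fun j => a j n)
      (fun _ _ => Nat.zero_le _) hj)

theorem lower (hrec : ∀ i n, a i (n + 1) = (∑ j ∈ S i, a j n) ^ d) (m : ℕ) :
    ∀ i ∈ R S m, ∀ n, ∃ j, (a i n) ^ (d ^ m) ≤ a j (m + n) := by
  induction m with
  | zero => intro i _ n; exact ⟨i, by simp⟩
  | succ m ih =>
    intro i hi n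
    obtain ⟨i', hi', hi⟩ := mem_R_succ.1 hi
    obtain ⟨j, hj⟩ := ih i' hi' (n + 1)
    refine ⟨j, ?_⟩
    have h1 : (a i n) ^ d ≤ a i' (n + 1) := by
      rw [hrec]
      exact Nat.pow_le_pow_left (Finset.single_le_sum (f := fun j => a j n)
        (fun _ _ => Nat.zero_le _) hi) d
    calc (a i n) ^ (d ^ (m + 1)) = ((a i n) ^ d) ^ (d ^ m) := by rw [← pow_mul, pow_succ']
      _ ≤ (a i' (n + 1)) ^ (d ^ m) := Nat.pow_le_pow_left h1 _
      _ ≤ a j (m + (n + 1)) := hj
      _ = a j (m + 1 + n) := by congr 1; ring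

theorem upper (hrec : ∀ i n, a i (n + 1) = (∑ j ∈ S i, a j n) ^ d) (m : ℕ) :
    ∃ C : ℕ, 1 ≤ C ∧ ∀ l n B, (∀ j ∈ R S (l + m), a j n ≤ B) →
      ∀ i ∈ R S l, a i (n + m) ≤ C * B ^ (d ^ m) := by
  induction m with
  | zero => exact ⟨1, le_rfl, fun l n B hB i hi => by simpa using hB i (by simpa using hi)⟩
  | succ m ih =>
    obtain ⟨C, hC, ih⟩ := ih
    refine ⟨(Fintype.card α * C + 1) ^ d, Nat.one_le_pow _ _ (by omega), ?_⟩
    intro l n B hB i hi
    have h1 : ∀ j ∈ S i, a j (n + m) ≤ C * B ^ (d ^ m) := by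
      intro j hj
      refine ih (l + 1) n B ?_ j (mem_R_succ.2 ⟨i, hi, hj⟩)
      intro j' hj'
      exact hB j' (by rwa [show l + (m + 1) = l + 1 + m by ring])
    have h2 : ∑ j ∈ S i, a j (n + m) ≤ (Fintype.card α * C + 1) * B ^ (d ^ m) := by
      calc ∑ j ∈ S i, a j (n + m) ≤ (S i).card • (C * B ^ (d ^ m)) :=
            Finset.sum_le_card_nsmul _ _ _ h1
        _ = (S i).card * C * B ^ (d ^ m) := by rw [smul_eq_mul, mul_assoc]
        _ ≤ (Fintype.card α * C + 1) * B ^ (d ^ m) := by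
            gcongr
            calc (S i).card * C ≤ Fintype.card α * C := by
                  gcongr
                  exact Finset.card_le_univ _
              _ ≤ _ := Nat.le_succ _
    calc a i (n + (m + 1)) = a i (n + m + 1) := rfl
      _ = (∑ j ∈ S i, a j (n + m)) ^ d := hrec _ _
      _ ≤ ((Fintype.card α * C + 1) * B ^ (d ^ m)) ^ d := Nat.pow_le_pow_left h2 d
      _ = (Fintype.card α * C + 1) ^ d * B ^ (d ^ (m + 1)) := by
          rw [mul_pow, ← pow_mul, ← pow_succ]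

end rec

/-- The extremal sequence. -/
def X (d : ℕ) : ℕ → ℕ
  | 0 => 1
  | 1 => 2 ^ d
  | n + 2 => (X d (n + 1) + X d n ^ d) ^ d

theorem X_pos (d n : ℕ) : 1 ≤ X d n := by
  induction n using Nat.strong_induction_on with
  | _ n ih =>
    match n with
    | 0 => simp [X]
    | 1 => simp only [X]; exact Nat.one_le_two_pow
    | n + 2 =>
      simp only [X]
      apply Nat.one_le_pow
      have := ih (n + 1) (by omega)
      omega

theorem X_pow_le (d n : ℕ) : X d n ^ d ≤ X d (n + 1) := by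
  match n with
  | 0 => simp only [X, one_pow]; exact Nat.one_le_two_pow
  | n + 1 =>
    simp only [X]
    exact Nat.pow_le_pow_left (Nat.le_add_right _ _) d

theorem X_succ_le (d n : ℕ) : X d (n + 1) ≤ (2 * X d n) ^ d := by
  match n with
  | 0 => simp [X]
  | n + 1 =>
    simp only [X]
    apply Nat.pow_le_pow_left
    have := X_pow_le d n
    omega

theorem logX_succ {d : ℕ} (n : ℕ) :
    Real.log (X d (n + 1)) ≤ d * (Real.log 2 + Real.log (X d n)) := by
  have hx : (1 : ℝ) ≤ X d n := by exact_mod_cast X_pos d n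
  have h1 : (X d (n + 1) : ℝ) ≤ (2 * (X d n : ℝ)) ^ d := by exact_mod_cast X_succ_le d n
  have h2 : (0 : ℝ) < X d (n + 1) := by exact_mod_cast (X_pos d (n + 1))
  calc Real.log (X d (n + 1)) ≤ Real.log ((2 * (X d n : ℝ)) ^ d) := Real.log_le_log h2 h1
    _ = d * (Real.log 2 + Real.log (X d n)) := by
        rw [Real.log_pow, Real.log_mul (by norm_num) (by positivity)]

theorem logX_bound {d : ℕ} (hd : 2 ≤ d) (N n : ℕ) :
    Real.log (X d (N + n)) + d * Real.log 2 / (d - 1) ≤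
      (d : ℝ) ^ n * (Real.log (X d N) + d * Real.log 2 / (d - 1)) := by
  have hd' : (2 : ℝ) ≤ d := by exact_mod_cast hd
  induction n with
  | zero => simp
  | succ n ih =>
    have h1 := logX_succ (d := d) (N + n)
    have h2 : (d : ℝ) * (d * Real.log 2 / (d - 1)) = d * Real.log 2 + d * Real.log 2 / (d - 1) := by
      have : (d : ℝ) - 1 ≠ 0 := by linarith
      field_simp
      ring
    calc Real.log (X d (N + (n + 1))) + d * Real.log 2 / (d - 1)
        ≤ d * (Real.log 2 + Real.log (X d (N + n))) + d * Real.log 2 / (d - 1) := by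
          have := h1
          rw [show N + (n + 1) = N + n + 1 by ring]
          linarith
      _ = d * Real.log (X d (N + n)) + (d * Real.log 2 + d * Real.log 2 / (d - 1)) := by ring
      _ = d * Real.log (X d (N + n)) + d * (d * Real.log 2 / (d - 1)) := by rw [h2]
      _ = d * (Real.log (X d (N + n)) + d * Real.log 2 / (d - 1)) := by ring
      _ ≤ d * ((d : ℝ) ^ n * (Real.log (X d N) + d * Real.log 2 / (d - 1))) := by gcongr
      _ = _ := by ring

/-- The upper bound of the rate from the `N`-th term of the extremal sequence. -/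
noncomputable def V (d N : ℕ) : ℝ := ((d - 1) * Real.log (X d N) + d * Real.log 2) / d ^ (N + 1)

theorem logX_le_V {d : ℕ} (hd : 2 ≤ d) (N n : ℕ) :
    Real.log (X d (N + n)) ≤ V d N / (d - 1) * d ^ (N + n + 1) := by
  have hd' : (2 : ℝ) ≤ d := by exact_mod_cast hd
  have h1 := logX_bound hd N n
  have h2 : 0 ≤ d * Real.log 2 / ((d : ℝ) - 1) := by
    apply div_nonneg
    · have := Real.log_nonneg (show (1:ℝ) ≤ 2 by norm_num); positivity
    · linarith
  have h3 : (d : ℝ) ^ n * (Real.log (X d N) + d * Real.log 2 / (d - 1)) =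
      V d N / (d - 1) * d ^ (N + n + 1) := by
    have : (d : ℝ) - 1 ≠ 0 := by linarith
    have : (d : ℝ) ≠ 0 := by linarith
    rw [V]
    field_simp
    ring
  linarith

section main

variable {S : α → Finset α} {a : α → ℕ → ℕ} {d : ℕ}

theorem rate_lower [Nonempty α] (hd : 2 ≤ d) (hS : ∀ i, (S i).Nonempty) (h0 : ∀ i, a i 0 = 1)
    (hrec : ∀ i n, a i (n + 1) = (∑ j ∈ S i, a j n) ^ d) {h : ℝ}
    (hlim : Tendsto (fun n => Real.log ((∑ i, a i n : ℕ) : ℝ) / (((d : ℝ) ^ (n + 1) - 1) / (d - 1)))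
      atTop (𝓝 h)) {i : α} (hi : ∀ m, i ∈ R S m) (n : ℕ) :
    (d - 1) / d ^ (n + 1) * Real.log (a i n) ≤ h := by
  have hd' : (2 : ℝ) ≤ d := by exact_mod_cast hd
  refine ge_of_tendsto (hlim.comp (tendsto_add_atTop_nat n)) ?_
  refine Eventually.of_forall fun m => ?_
  obtain ⟨j, hj⟩ := lower hrec m i (hi m) n
  have hpos : (1 : ℝ) ≤ a i n := by exact_mod_cast pos hS h0 hrec i n
  have h1 : ((a i n : ℝ)) ^ (d ^ m) ≤ ((∑ i, a i (m + n) : ℕ) : ℝ) := by
    have : (a i n) ^ (d ^ m) ≤ ∑ i, a i (m + n) :=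
      hj.trans (Finset.single_le_sum (f := fun j => a j (m + n)) (fun _ _ => Nat.zero_le _)
        (Finset.mem_univ j))
    exact_mod_cast this
  have h2 : (d : ℝ) ^ m * Real.log (a i n) ≤ Real.log ((∑ i, a i (m + n) : ℕ) : ℝ) := by
    have := Real.log_le_log (by positivity) h1
    rw [Real.log_pow] at this
    push_cast at this ⊢
    exact this
  have hD : (1 : ℝ) < (d : ℝ) ^ (m + n + 1) := one_lt_pow₀ (by linarith) (by omega)
  simp only [Function.comp_def]
  rw [div_div_eq_mul_div, le_div_iff₀ (by linarith)]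
  have hl : 0 ≤ Real.log (a i n) := Real.log_nonneg hpos
  calc (d - 1) / d ^ (n + 1) * Real.log (a i n) * ((d : ℝ) ^ (m + n + 1) - 1)
      ≤ (d - 1) / d ^ (n + 1) * Real.log (a i n) * ((d : ℝ) ^ (m + n + 1)) := by
        have : 0 ≤ ((d : ℝ) - 1) / d ^ (n + 1) := div_nonneg (by linarith) (by positivity)
        have := mul_nonneg this hl
        gcongr
        linarith
    _ = (d : ℝ) ^ m * Real.log (a i n) * (d - 1) := by
        have : (d : ℝ) ≠ 0 := by linarith
        field_simp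
        ring
    _ ≤ Real.log ((∑ i, a i (m + n) : ℕ) : ℝ) * (d - 1) := by
        have : 0 ≤ (d : ℝ) - 1 := by linarith
        gcongr

theorem rate_upper [Nonempty α] (hd : 2 ≤ d) (hS : ∀ i, (S i).Nonempty) (h0 : ∀ i, a i 0 = 1)
    (hrec : ∀ i n, a i (n + 1) = (∑ j ∈ S i, a j n) ^ d) {h : ℝ}
    (hlim : Tendsto (fun n => Real.log ((∑ i, a i n : ℕ) : ℝ) / (((d : ℝ) ^ (n + 1) - 1) / (d - 1)))
      atTop (𝓝 h)) {m₀ : ℕ} (hX : ∀ n, ∀ i ∈ R S m₀, a i n ≤ X d n) (N : ℕ) :
    h ≤ V d N := by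
  have hd' : (2 : ℝ) ≤ d := by exact_mod_cast hd
  obtain ⟨C, hC, hup⟩ := upper hrec m₀
  set K := Fintype.card α with hK
  have hK1 : 1 ≤ K := Fintype.card_pos
  set L := Real.log ((K * C : ℕ) : ℝ) with hL
  -- the bound
  have hb : ∀ n, Real.log ((∑ i, a i (N + n + m₀) : ℕ) : ℝ) / (((d : ℝ) ^ (N + n + m₀ + 1) - 1) / (d - 1))
      ≤ V d N + (L * (d - 1) + V d N) / ((d : ℝ) ^ (N + n + m₀ + 1) - 1) := by
    intro n
    have hD : (1 : ℝ) < (d : ℝ) ^ (N + n + m₀ + 1) := one_lt_pow₀ (by linarith) (by omega)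
    have h1 : ∑ i, a i (N + n + m₀) ≤ K * C * X d (N + n) ^ (d ^ m₀) := by
      calc ∑ i, a i (N + n + m₀) ≤ ∑ _i : α, C * X d (N + n) ^ (d ^ m₀) := by
            apply Finset.sum_le_sum
            intro i _
            refine hup 0 (N + n) (X d (N + n)) ?_ i (Finset.mem_univ i)
            intro j hj
            exact hX _ j (by simpa using hj)
        _ = _ := by rw [Finset.sum_const, Finset.card_univ, smul_eq_mul, mul_assoc]
    have hpos : 1 ≤ ∑ i, a i (N + n + m₀) := by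
      obtain ⟨i⟩ := (inferInstance : Nonempty α)
      exact (pos hS h0 hrec i _).trans
        (Finset.single_le_sum (f := fun j => a j (N + n + m₀)) (fun _ _ => Nat.zero_le _)
        (Finset.mem_univ i))
    have hXp := X_pos d (N + n)
    have h2 : Real.log ((∑ i, a i (N + n + m₀) : ℕ) : ℝ) ≤
        L + (d : ℝ) ^ m₀ * Real.log (X d (N + n)) := by
      have h3 : ((∑ i, a i (N + n + m₀) : ℕ) : ℝ) ≤ ((K * C : ℕ) : ℝ) * (X d (N + n) : ℝ) ^ (d ^ m₀) := by
        exact_mod_cast h1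
      have hp : (0 : ℝ) < ((∑ i, a i (N + n + m₀) : ℕ) : ℝ) := by exact_mod_cast hpos
      have hKC : ((K * C : ℕ) : ℝ) ≠ 0 := by
        have : 1 ≤ K * C := Nat.one_le_iff_ne_zero.2 (Nat.mul_ne_zero (by omega) (by omega))
        exact_mod_cast (by omega : K * C ≠ 0)
      have hXr : (X d (N + n) : ℝ) ^ (d ^ m₀) ≠ 0 := by
        apply pow_ne_zero
        exact_mod_cast (by omega : X d (N + n) ≠ 0)
      have := Real.log_le_log hp h3
      rw [Real.log_mul hKC hXr, Real.log_pow, ← hL] at this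
      push_cast at this ⊢
      exact this
    have h4 := logX_le_V hd N n
    have h5 : Real.log ((∑ i, a i (N + n + m₀) : ℕ) : ℝ) * (d - 1) ≤
        L * (d - 1) + V d N * d ^ (N + n + m₀ + 1) := by
      have hd1 : (0 : ℝ) < d - 1 := by linarith
      calc Real.log ((∑ i, a i (N + n + m₀) : ℕ) : ℝ) * (d - 1)
          ≤ (L + (d : ℝ) ^ m₀ * (V d N / (d - 1) * d ^ (N + n + 1))) * (d - 1) := by
            gcongr
            exact h2.trans (by gcongr)
        _ = _ := by
            field_simp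
            ring
    rw [div_div_eq_mul_div, div_le_iff₀ (by linarith)]
    have h6 : (V d N + (L * (d - 1) + V d N) / ((d : ℝ) ^ (N + n + m₀ + 1) - 1)) *
        ((d : ℝ) ^ (N + n + m₀ + 1) - 1) = L * (d - 1) + V d N * d ^ (N + n + m₀ + 1) := by
      have : (d : ℝ) ^ (N + n + m₀ + 1) - 1 ≠ 0 := by linarith
      rw [add_mul, div_mul_cancel₀ _ this]
      ring
    rw [h6]
    exact h5
  have hlim' : Tendsto (fun n => Real.log ((∑ i, a i (N + n + m₀) : ℕ) : ℝ) /
      (((d : ℝ) ^ (N + n + m₀ + 1) - 1) / (d - 1))) atTop (𝓝 h) := by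
    have := hlim.comp (tendsto_add_atTop_nat (N + m₀))
    refine this.congr fun n => ?_
    simp only [Function.comp_def]
    rw [show n + (N + m₀) = N + n + m₀ by ring]
  have hg : Tendsto (fun n : ℕ => V d N + (L * (d - 1) + V d N) / ((d : ℝ) ^ (N + n + m₀ + 1) - 1))
      atTop (𝓝 (V d N + 0)) := by
    refine tendsto_const_nhds.add ?_
    refine Tendsto.div_atTop tendsto_const_nhds ?_
    refine tendsto_atTop_add_const_right _ _ ?_
    have := (tendsto_pow_atTop_atTop_of_one_lt (show (1:ℝ) < d by linarith)).comp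
      (tendsto_add_atTop_nat (N + m₀ + 1))
    refine this.congr fun n => ?_
    simp only [Function.comp_def]
    rw [show n + (N + m₀ + 1) = N + n + m₀ + 1 by ring]
  rw [add_zero] at hg
  exact le_of_tendsto_of_tendsto' hlim' hg hb

/-- The combinatorial dichotomy. -/
theorem le_X (hS : ∀ i, (S i).Nonempty) (h0 : ∀ i, a i 0 = 1)
    (hrec : ∀ i n, a i (n + 1) = (∑ j ∈ S i, a j n) ^ d) {T : Finset α}
    (hT : ∀ i ∈ T, S i ⊆ T) (h2 : ∀ i ∈ T, (S i).card ≤ 2)
    (h11 : ∀ i ∈ T, ∀ j ∈ S i, ∀ j' ∈ S i, j ≠ j' → (S j).card ≤ 1 ∨ (S j').card ≤ 1) :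
    ∀ n, ∀ i ∈ T, a i n ≤ X d n := by
  have hone : ∀ i, a i 1 = (S i).card ^ d := by
    intro i
    rw [hrec, Finset.sum_congr rfl (fun j _ => h0 j)]
    simp
  intro n
  induction n using Nat.strong_induction_on with
  | _ n ih =>
    intro i hi
    match n with
    | 0 => rw [h0]; rfl
    | 1 =>
      rw [hone]
      exact Nat.pow_le_pow_left (h2 i hi) d
    | n + 2 =>
      rw [hrec]
      simp only [X]
      apply Nat.pow_le_pow_left
      have hle : ∀ j ∈ S i, a j (n + 1) ≤ X d (n + 1) := fun j hj =>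
        ih (n + 1) (by omega) j (hT i hi hj)
      have hsmall : ∀ j ∈ S i, (S j).card ≤ 1 → a j (n + 1) ≤ X d n ^ d := by
        intro j hj hc
        rw [hrec]
        apply Nat.pow_le_pow_left
        have hc1 : (S j).card = 1 := le_antisymm hc (Finset.card_pos.2 (hS j))
        obtain ⟨l, hl⟩ := Finset.card_eq_one.1 hc1
        rw [hl, Finset.sum_singleton]
        refine ih n (by omega) l (hT j (hT i hi hj) ?_)
        rw [hl]
        exact Finset.mem_singleton_self l
      have hpc : 0 < (S i).card := Finset.card_pos.2 (hS i)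
      have hcc : (S i).card = 1 ∨ (S i).card = 2 := by
        have := h2 i hi
        omega
      rcases hcc with hc | hc
      · obtain ⟨l, hl⟩ := Finset.card_eq_one.1 hc
        rw [hl, Finset.sum_singleton]
        have := hle l (by rw [hl]; exact Finset.mem_singleton_self l)
        omega
      · obtain ⟨l, l', hne, hl⟩ := Finset.card_eq_two.1 hc
        have hlm : l ∈ S i := by rw [hl]; simp
        have hlm' : l' ∈ S i := by rw [hl]; simp
        rw [hl, Finset.sum_pair hne]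
        rcases h11 i hi l hlm l' hlm' hne with h | h
        · have h3 := hsmall l hlm h
          have h4 := hle l' hlm'
          omega
        · have h3 := hsmall l' hlm' h
          have h4 := hle l hlm
          omega

/-- The main dichotomy: the rate is at least `(1 - 1/d²) log 2` or at most `V d N`. -/
theorem dichotomy [Nonempty α] (hd : 2 ≤ d) (hS : ∀ i, (S i).Nonempty) (h0 : ∀ i, a i 0 = 1)
    (hrec : ∀ i n, a i (n + 1) = (∑ j ∈ S i, a j n) ^ d) {h : ℝ}
    (hlim : Tendsto (fun n => Real.log ((∑ i, a i n : ℕ) : ℝ) / (((d : ℝ) ^ (n + 1) - 1) / (d - 1)))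
      atTop (𝓝 h)) : (1 - 1 / (d : ℝ) ^ 2) * Real.log 2 ≤ h ∨ ∀ N, h ≤ V d N := by
  have hd' : (2 : ℝ) ≤ d := by exact_mod_cast hd
  have hlog2 : 0 < Real.log 2 := Real.log_pos (by norm_num)
  have hone : ∀ i, a i 1 = (S i).card ^ d := by
    intro i
    rw [hrec, Finset.sum_congr rfl (fun j _ => h0 j)]
    simp
  obtain ⟨m₀, hm₀⟩ := R_stab S
  have hanti : Antitone (R S) := antitone_nat_of_succ_le (R_succ_subset S)
  have hall : ∀ i ∈ R S m₀, ∀ m, i ∈ R S m := by
    intro i hi m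
    rcases le_total m m₀ with h | h
    · exact hanti h hi
    · rw [hm₀ m h]; exact hi
  have hT : ∀ i ∈ R S m₀, S i ⊆ R S m₀ := by
    intro i hi j hj
    rw [← hm₀ (m₀ + 1) (Nat.le_succ _)]
    exact mem_R_succ.2 ⟨i, hi, hj⟩
  by_cases h3 : ∃ i ∈ R S m₀, 3 ≤ (S i).card
  · left
    obtain ⟨i, hi, hc⟩ := h3
    have h1 := rate_lower hd hS h0 hrec hlim (hall i hi) 1
    have h2 : (3 : ℝ) ^ d ≤ a i 1 := by
      rw [hone]
      exact_mod_cast Nat.pow_le_pow_left hc d
    have h4 : (d : ℝ) * Real.log 3 ≤ Real.log (a i 1) := by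
      rw [← Real.log_pow]
      exact Real.log_le_log (by positivity) h2
    have h5 : 3 * Real.log 2 ≤ 2 * Real.log 3 := by
      have : Real.log (2 ^ 3) ≤ Real.log (3 ^ 2) := Real.log_le_log (by norm_num) (by norm_num)
      rw [Real.log_pow, Real.log_pow] at this
      exact_mod_cast this
    refine le_trans ?_ h1
    have h6 : (0 : ℝ) ≤ (d - 1) / d ^ (1 + 1) := div_nonneg (by linarith) (by positivity)
    refine le_trans ?_ (mul_le_mul_of_nonneg_left h4 h6)
    have h7 : ((d : ℝ) + 1) * Real.log 2 ≤ d * Real.log 3 := by nlinarith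
    have h8 : (1 - 1 / (d : ℝ) ^ 2) * Real.log 2 =
        (d - 1) / d ^ (1 + 1) * (((d : ℝ) + 1) * Real.log 2) := by
      have : (d : ℝ) ≠ 0 := by linarith
      field_simp
      ring
    rw [h8]
    exact mul_le_mul_of_nonneg_left h7 h6
  push Not at h3
  by_cases h11 : ∀ i ∈ R S m₀, ∀ j ∈ S i, ∀ j' ∈ S i, j ≠ j' → (S j).card ≤ 1 ∨ (S j').card ≤ 1
  · right
    intro N
    refine rate_upper hd hS h0 hrec hlim (m₀ := m₀) ?_ N
    intro n i hi
    exact le_X hS h0 hrec hT (fun i hi => by have := h3 i hi; omega) h11 n i hi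
  · left
    push Not at h11
    obtain ⟨i, hi, j, hj, j', hj', hne, hc, hc'⟩ := h11
    have h1 := rate_lower hd hS h0 hrec hlim (hall i hi) 2
    have hb : 2 ^ d + 2 ^ d ≤ ∑ l ∈ S i, a l 1 := by
      calc 2 ^ d + 2 ^ d ≤ a j 1 + a j' 1 := by
            rw [hone, hone]
            exact Nat.add_le_add (Nat.pow_le_pow_left hc d) (Nat.pow_le_pow_left hc' d)
        _ = ∑ l ∈ {j, j'}, a l 1 := by rw [Finset.sum_pair hne]
        _ ≤ ∑ l ∈ S i, a l 1 := by
            apply Finset.sum_le_sum_of_subset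
            intro x hx
            rw [Finset.mem_insert, Finset.mem_singleton] at hx
            rcases hx with rfl | rfl
            · exact hj
            · exact hj'
    have h2 : (2 : ℝ) ^ ((d + 1) * d) ≤ a i 2 := by
      have : 2 ^ ((d + 1) * d) ≤ a i 2 := by
        rw [hrec i 1, pow_mul]
        apply Nat.pow_le_pow_left
        rw [pow_succ]
        omega
      exact_mod_cast this
    have h4 : (((d + 1) * d : ℕ) : ℝ) * Real.log 2 ≤ Real.log (a i 2) := by
      rw [← Real.log_pow]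
      exact Real.log_le_log (by positivity) h2
    refine le_trans ?_ h1
    have h6 : (0 : ℝ) ≤ (d - 1) / d ^ (2 + 1) := div_nonneg (by linarith) (by positivity)
    refine le_trans ?_ (mul_le_mul_of_nonneg_left h4 h6)
    apply le_of_eq
    push_cast
    have : (d : ℝ) ≠ 0 := by linarith
    field_simp
    ring

end main

theorem V_two : V 2 7 < (1 - 26 / 25 / ((2 : ℕ) : ℝ) ^ 2) * Real.log 2 := by
  have hlog2 : 0 < Real.log 2 := Real.log_pos (by norm_num)
  have h1 : X 2 7 ≤ 2 ^ 187 := by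
    simp only [X]
    norm_num
  have h2 : Real.log (X 2 7) ≤ 187 * Real.log 2 := by
    have h3 : (X 2 7 : ℝ) ≤ (2 : ℝ) ^ 187 := by exact_mod_cast h1
    have h4 := X_pos 2 7
    have := Real.log_le_log (by exact_mod_cast h4) h3
    rw [Real.log_pow] at this
    exact_mod_cast this
  rw [V]
  push_cast
  rw [div_lt_iff₀ (by positivity)]
  norm_num
  nlinarith

theorem V_ge_three {d : ℕ} (hd : 3 ≤ d) : V d 2 < (1 - 26 / 25 / (d : ℝ) ^ 2) * Real.log 2 := by
  have hd' : (3 : ℝ) ≤ d := by exact_mod_cast hd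
  have hlog2 : 0 < Real.log 2 := Real.log_pos (by norm_num)
  have h1 : (X d 2 : ℝ) = ((2 : ℝ) ^ d + 1) ^ d := by
    simp only [X]
    push_cast
    ring
  have h2 : Real.log ((2 : ℝ) ^ d + 1) ≤ (d + 1 / 4) * Real.log 2 := by
    have h3 : ((2 : ℝ) ^ d + 1) ^ 4 ≤ (2 : ℝ) ^ (4 * d + 1) := by
      have h8 : (8 : ℝ) ≤ 2 ^ d := by
        calc (8 : ℝ) = 2 ^ 3 := by norm_num
          _ ≤ 2 ^ d := pow_le_pow_right₀ (by norm_num) hd
      have h9 : (2 : ℝ) ^ d + 1 ≤ 9 / 8 * 2 ^ d := by linarith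
      calc ((2 : ℝ) ^ d + 1) ^ 4 ≤ (9 / 8 * 2 ^ d) ^ 4 := by gcongr
        _ = (9 / 8) ^ 4 * (2 ^ d) ^ 4 := by ring
        _ ≤ 2 * (2 ^ d) ^ 4 := by gcongr; norm_num
        _ = (2 : ℝ) ^ (4 * d + 1) := by rw [← pow_mul, mul_comm d 4, ← pow_succ']
    have h4 := Real.log_le_log (by positivity) h3
    rw [Real.log_pow, Real.log_pow] at h4
    push_cast at h4
    linarith
  rw [V, h1, Real.log_pow]
  rw [div_lt_iff₀ (by positivity)]
  have h5 : (d : ℝ) ≠ 0 := by linarith
  have h6 : (1 - 26 / 25 / (d : ℝ) ^ 2) * Real.log 2 * (d : ℝ) ^ (2 + 1) =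
      d * ((d ^ 2 - 26 / 25) * Real.log 2) := by
    field_simp
    ring
  rw [h6]
  have h7 : ((d : ℝ) - 1) * (d * Real.log ((2 : ℝ) ^ d + 1)) + d * Real.log 2 =
      d * ((d - 1) * Real.log ((2 : ℝ) ^ d + 1) + Real.log 2) := by ring
  rw [h7]
  apply mul_lt_mul_of_pos_left _ (by linarith)
  have h8 : ((d : ℝ) - 1) * Real.log ((2 : ℝ) ^ d + 1) ≤ (d - 1) * ((d + 1 / 4) * Real.log 2) :=
    mul_le_mul_of_nonneg_left h2 (by linarith)
  have h9 : (0 : ℝ) < (3 / 4 * d - 3 / 4 - 26 / 25) * Real.log 2 := by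
    apply mul_pos _ hlog2
    linarith
  nlinarith

/-- No rate slightly below `(1 - 1/d²) log 2`. -/
theorem gap {S : α → Finset α} {a : α → ℕ → ℕ} {d : ℕ} [Nonempty α] (hd : 2 ≤ d)
    (hS : ∀ i, (S i).Nonempty) (h0 : ∀ i, a i 0 = 1)
    (hrec : ∀ i n, a i (n + 1) = (∑ j ∈ S i, a j n) ^ d) {h : ℝ}
    (hlim : Tendsto (fun n => Real.log ((∑ i, a i n : ℕ) : ℝ) / (((d : ℝ) ^ (n + 1) - 1) / (d - 1)))
      atTop (𝓝 h)) :
    h < (1 - 26 / 25 / (d : ℝ) ^ 2) * Real.log 2 ∨ (1 - 1 / (d : ℝ) ^ 2) * Real.log 2 ≤ h := by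
  rcases dichotomy hd hS h0 hrec hlim with h1 | h1
  · exact Or.inr h1
  · left
    rcases Nat.lt_or_ge d 3 with h3 | h3
    · obtain rfl : d = 2 := by omega
      exact (h1 7).trans_lt V_two
    · exact (h1 2).trans_lt (V_ge_three h3)

end Pool.Agent.KS6_18.TGap
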