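import Pool.Agent.KS6_18.TGap.Shift

/-!
# A family of irreducible hom Markov tree-shifts

The states have a level in `ℤ/p`, `p = n + l`; the levels `0, …, n-1` have `K` states, the other
levels one. A state of level `t` may be followed by every state of level `t + 1`. The entropy is
`(1 - 1/d^n) / (1 - 1/d^p) log K`.
-/

set_option autoImplicit false

open Filter Topology Finset

namespace Pool.Agent.KS6_18.TGap

/-- The number of states of each level. -/
def w (p n K : ℕ) (t : ℕ) : ℕ := if t % p < n then K else 1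

theorem w_pos {p n K : ℕ} (hK : 1 ≤ K) (t : ℕ) : 1 ≤ w p n K t := by
  unfold w
  split_ifs <;> omega

theorem w_mod (p n K t : ℕ) : w p n K (t % p) = w p n K t := by
  unfold w
  rw [Nat.mod_mod]

/-- A level function with prescribed fibres. -/
theorem exists_level (p : ℕ) (v : ℕ → ℕ) : ∃ (k : ℕ) (L : Fin k → ℕ), (∀ i, L i < p) ∧
    ∀ t < p, (Finset.univ.filter fun i => L i = t).card = v t := by
  classical
  let σ := Σ t : Fin p, Fin (v t)
  let e : σ ≃ Fin (Fintype.card σ) := Fintype.equivFin σ
  refine ⟨Fintype.card σ, fun i => (e.symm i).1.1, fun i => (e.symm i).1.2, ?_⟩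
  intro t ht
  have h1 : (Finset.univ.filter fun i => ((e.symm i).1.1 : ℕ) = t).card =
      (Finset.univ.filter fun x : σ => (x.1.1 : ℕ) = t).card := by
    refine Finset.card_bij' (fun i _ => e.symm i) (fun x _ => e x) ?_ ?_ ?_ ?_
    · intro i hi; simpa using hi
    · intro x hx; simpa using hx
    · intro i hi; simp
    · intro x hx; simp
  rw [h1]
  have h2 : (Finset.univ.filter fun x : σ => (x.1.1 : ℕ) = t) =
      (Finset.univ : Finset (Fin (v t))).map ⟨fun y => (⟨⟨t, ht⟩, y⟩ : σ), fun a b h => by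
        simpa using h⟩ := by
    ext ⟨⟨s, hs⟩, y⟩
    simp only [Finset.mem_filter, Finset.mem_univ, true_and, Finset.mem_map,
      Function.Embedding.coeFn_mk]
    constructor
    · rintro rfl
      exact ⟨y, rfl⟩
    · rintro ⟨z, hz⟩
      have := congrArg (fun x : σ => (x.1.1 : ℕ)) hz
      exact this.symm
  rw [h2, Finset.card_map, Finset.card_univ, Fintype.card_fin]

/-- The matrix: successors are the states of the next level. -/
def Mc (p : ℕ) {k : ℕ} (L : Fin k → ℕ) : Matrix (Fin k) (Fin k) ℕ :=
  fun i j => if L j = (L i + 1) % p then 1 else 0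

/-- The numbers of patterns. -/
def AA (d p n K : ℕ) : ℕ → ℕ → ℕ
  | _, 0 => 1
  | t, m + 1 => (w p n K (t + 1) * AA d p n K (t + 1) m) ^ d

theorem AA_pos {d p n K : ℕ} (hK : 1 ≤ K) (m : ℕ) : ∀ t, 1 ≤ AA d p n K t m := by
  induction m with
  | zero => intro t; exact le_rfl
  | succ m ih =>
    intro t
    simp only [AA]
    exact Nat.one_le_pow _ _ (Nat.mul_pos (w_pos hK _) (ih _))

theorem AA_mod (d p n K : ℕ) (m : ℕ) : ∀ t, AA d p n K (t % p) m = AA d p n K t m := by
  induction m with
  | zero => intro t; rfl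
  | succ m ih =>
    intro t
    simp only [AA]
    rw [← w_mod p n K (t % p + 1), ← w_mod p n K (t + 1), ← ih (t % p + 1), ← ih (t + 1),
      Nat.mod_add_mod]

section family

variable {d p n K k : ℕ} {L : Fin k → ℕ}

theorem succ_card (hp : 0 < p)
    (hfib : ∀ t < p, (Finset.univ.filter fun i => L i = t).card = w p n K t) (i : Fin k) :
    (succ (Mc p L) i).card = w p n K (L i + 1) := by
  have : succ (Mc p L) i = Finset.univ.filter fun j => L j = (L i + 1) % p := by
    unfold succ
    ext j
    rw [Finset.mem_filter, Finset.mem_filter]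
    unfold Mc
    split_ifs with h <;> simp [h]
  rw [this, hfib _ (Nat.mod_lt _ hp), w_mod]

theorem exists_lev (hK : 1 ≤ K)
    (hfib : ∀ t < p, (Finset.univ.filter fun i => L i = t).card = w p n K t) {t : ℕ} (ht : t < p) :
    ∃ i, L i = t := by
  have h1 := hfib t ht
  have h2 : 0 < (Finset.univ.filter fun i => L i = t).card := by
    rw [h1]; exact w_pos hK t
  obtain ⟨i, hi⟩ := Finset.card_pos.1 h2
  exact ⟨i, by simpa using hi⟩

theorem occ_all (hp : 0 < p) (hK : 1 ≤ K)
    (hfib : ∀ t < p, (Finset.univ.filter fun i => L i = t).card = w p n K t) (i : Fin k) :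
    i ∈ Occ d (Mc p L) := by
  have h1 : ∀ i, ∃ j, L j = (L i + 1) % p := fun i => exists_lev hK hfib (Nat.mod_lt _ hp)
  choose f hf using h1
  refine ⟨fun g => f^[g.length] i, ?_, rfl⟩
  intro g c
  simp only [Mc, List.length_append, List.length_singleton, Function.iterate_succ_apply']
  rw [if_pos (hf _)]

theorem P_eq_AA (hp : 0 < p) (hK : 1 ≤ K)
    (hfib : ∀ t < p, (Finset.univ.filter fun i => L i = t).card = w p n K t) (m : ℕ) :
    ∀ i : Fin k, (P d (Mc p L) i m).ncard = AA d p n K (L i) m := by
  induction m with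
  | zero => intro i; rw [P_zero_of_mem (occ_all hp hK hfib i)]; rfl
  | succ m ih =>
    intro i
    rw [ncard_P_succ]
    simp only [AA]
    congr 1
    rw [← succ_card hp hfib i, ← smul_eq_mul, ← Finset.sum_const]
    apply Finset.sum_congr rfl
    intro j hj
    rw [ih]
    have : L j = (L i + 1) % p := by
      simp only [succ, Mc, Finset.mem_filter, Finset.mem_univ, true_and] at hj
      by_contra hcon
      rw [if_neg hcon] at hj
      exact absurd hj (by norm_num)
    rw [this, AA_mod]

theorem Mc_pow_pos (hp : 0 < p) (hK : 1 ≤ K)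
    (hfib : ∀ t < p, (Finset.univ.filter fun i => L i = t).card = w p n K t) (m : ℕ) :
    ∀ i j : Fin k, L j = (L i + (m + 1)) % p → 0 < (Mc p L ^ (m + 1)) i j := by
  induction m with
  | zero =>
    intro i j h
    simp only [zero_add, pow_one, Mc]
    rw [if_pos (by simpa using h)]
    exact Nat.one_pos
  | succ m ih =>
    intro i j h
    obtain ⟨l, hl⟩ := exists_lev hK hfib (Nat.mod_lt (L i + (m + 1)) hp)
    have h1 := ih i l hl
    have h2 : Mc p L l j = 1 := by
      simp only [Mc]
      rw [if_pos]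
      rw [h, hl, Nat.mod_add_mod]
      congr 1
    rw [pow_succ (Mc p L) (m + 1), Matrix.mul_apply]
    refine lt_of_lt_of_le h1 ?_
    calc (Mc p L ^ (m + 1)) i l = (Mc p L ^ (m + 1)) i l * Mc p L l j := by rw [h2, mul_one]
      _ ≤ _ := Finset.single_le_sum (f := fun l => (Mc p L ^ (m + 1)) i l * Mc p L l j)
        (fun _ _ => Nat.zero_le _) (Finset.mem_univ l)

theorem Mc_irred (hp : 0 < p) (hK : 1 ≤ K) (hL : ∀ i, L i < p)
    (hfib : ∀ t < p, (Finset.univ.filter fun i => L i = t).card = w p n K t) (i j : Fin k) :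
    ∃ m : ℕ, 1 ≤ m ∧ 0 < (Mc p L ^ m) i j := by
  have h1 := hL i
  have h2 := hL j
  refine ⟨(p + L j - L i - 1) + 1, by omega, Mc_pow_pos hp hK hfib _ i j ?_⟩
  rw [show L i + (p + L j - L i - 1 + 1) = L j + p by omega, Nat.add_mod_right,
    Nat.mod_eq_of_lt h2]

end family

end Pool.Agent.KS6_18.TGap
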