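import Pool.Agent.KS6_18.TGap.Cyc

/-!
# The entropy of the cyclic family
-/

set_option autoImplicit false

open Filter Topology Finset

namespace Pool.Agent.KS6_18.TGap

/-- The constant `θ`. -/
noncomputable def th (q : ℝ) (n l : ℕ) : ℝ := q * (1 - q ^ l) / ((1 - q) * (1 - q ^ (n + l)))

/-- The potential. -/
noncomputable def psi (q : ℝ) (n l : ℕ) (t : ℕ) : ℝ :=
  if t % (n + l) < n then 1 / (1 - q) - th q n l * q ^ (t % (n + l))
  else (1 / (1 - q) - th q n l * q ^ (n - 1)) * q ^ (t % (n + l) - (n - 1))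

theorem th_eq {q : ℝ} (hq1 : q < 1) (hq0 : 0 < q) {n l : ℕ} (hn : 1 ≤ n) :
    th q n l * (1 - q ^ (n + l)) = q * (1 - q ^ l) / (1 - q) := by
  have h1 : q ^ (n + l) < 1 := pow_lt_one₀ hq0.le hq1 (by omega)
  have h2 : (1 - q ^ (n + l)) ≠ 0 := by linarith
  have h3 : (1 - q) ≠ 0 := by linarith
  rw [th]
  field_simp

theorem th_nonneg {q : ℝ} (hq1 : q < 1) (hq0 : 0 < q) {n l : ℕ} (hn : 1 ≤ n) : 0 ≤ th q n l := by
  have h1 : q ^ (n + l) < 1 := pow_lt_one₀ hq0.le hq1 (by omega)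
  have h2 : q ^ l ≤ 1 := pow_le_one₀ hq0.le hq1.le
  rw [th]
  apply div_nonneg
  · apply mul_nonneg hq0.le; linarith
  · apply mul_nonneg <;> linarith

theorem psi_rec {q : ℝ} (hq1 : q < 1) (hq0 : 0 < q) {n l : ℕ} (hn : 1 ≤ n) (hl : 1 ≤ l) (t : ℕ) :
    psi q n l (t + 1) = (if (t + 1) % (n + l) < n then 1 else 0) + q * psi q n l t := by
  have h3 : (1 - q) ≠ 0 := by linarith
  have hr : t % (n + l) < n + l := Nat.mod_lt _ (by omega)
  have hcase : (t + 1) % (n + l) = if t % (n + l) + 1 = n + l then 0 else t % (n + l) + 1 := by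
    rw [← Nat.mod_add_mod]
    split_ifs with h
    · rw [h, Nat.mod_self]
    · exact Nat.mod_eq_of_lt (by omega)
  unfold psi
  rw [hcase]
  set r := t % (n + l) with hrdef
  by_cases h1 : r + 1 = n + l
  · rw [if_pos h1, if_pos (by omega), if_pos (by omega), if_neg (by omega)]
    have h4 : r - (n - 1) = l := by omega
    rw [h4, pow_zero, mul_one]
    have h5 := th_eq hq1 hq0 (n := n) (l := l) hn
    have h6 : q * ((1 / (1 - q) - th q n l * q ^ (n - 1)) * q ^ l) =
        q ^ (l + 1) / (1 - q) - th q n l * q ^ (n + l) := by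
      have : q ^ (n + l) = q ^ (n - 1) * q ^ l * q := by
        rw [← pow_add, ← pow_succ]; congr 1; omega
      rw [this]
      ring
    rw [h6]
    have h7 : th q n l = q * (1 - q ^ l) / (1 - q) + th q n l * q ^ (n + l) := by linarith
    have h8 : 1 / (1 - q) - q * (1 - q ^ l) / (1 - q) = 1 + q ^ (l + 1) / (1 - q) := by
      field_simp
      ring
    linarith
  · rw [if_neg h1]
    by_cases h2 : r + 1 < n
    · rw [if_pos h2, if_pos h2, if_pos (by omega)]
      field_simp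
      ring
    · rw [if_neg h2, if_neg h2]
      by_cases h4 : r < n
      · rw [if_pos h4]
        have h5 : r = n - 1 := by omega
        have h6 : r + 1 - (n - 1) = 1 := by omega
        rw [h6, h5]
        ring
      · rw [if_neg h4]
        have h6 : r + 1 - (n - 1) = (r - (n - 1)) + 1 := by omega
        rw [h6, pow_succ]
        ring

theorem psi_max {q : ℝ} (hq1 : q < 1) (hq0 : 0 < q) {n l : ℕ} (hn : 1 ≤ n) (t : ℕ) :
    psi q n l t ≤ 1 / (1 - q) - th q n l * q ^ (n - 1) := by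
  have hth := th_nonneg hq1 hq0 (n := n) (l := l) hn
  have hbase : 0 ≤ 1 / (1 - q) - th q n l * q ^ (n - 1) := by
    have h1 : q ^ (n + l) < 1 := pow_lt_one₀ hq0.le hq1 (by omega)
    have h5 := th_eq hq1 hq0 (n := n) (l := l) hn
    have h2 : th q n l ≤ 1 / (1 - q) := by
      rw [th, div_le_div_iff₀ (mul_pos (by linarith) (by linarith)) (by linarith)]
      have h3 : q * (1 - q ^ l) ≤ 1 - q ^ (n + l) := by
        have h4 : q ^ (n + l) ≤ q ^ l * q := by
          rw [← pow_succ]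
          exact pow_le_pow_of_le_one hq0.le hq1.le (by omega)
        nlinarith
      nlinarith
    have h3 : q ^ (n - 1) ≤ 1 := pow_le_one₀ hq0.le hq1.le
    have h4 : th q n l * q ^ (n - 1) ≤ th q n l * 1 := mul_le_mul_of_nonneg_left h3 hth
    linarith
  unfold psi
  split_ifs with h
  · have h1 : q ^ (n - 1) ≤ q ^ (t % (n + l)) := pow_le_pow_of_le_one hq0.le hq1.le (by omega)
    have := mul_le_mul_of_nonneg_left h1 hth
    linarith
  · have h1 : q ^ (t % (n + l) - (n - 1)) ≤ 1 := pow_le_one₀ hq0.le hq1.le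
    calc _ ≤ (1 / (1 - q) - th q n l * q ^ (n - 1)) * 1 := mul_le_mul_of_nonneg_left h1 hbase
      _ = _ := mul_one _

theorem psi_nonneg {q : ℝ} (hq1 : q < 1) (hq0 : 0 < q) {n l : ℕ} (hn : 1 ≤ n) (t : ℕ) :
    0 ≤ psi q n l t := by
  have hth := th_nonneg hq1 hq0 (n := n) (l := l) hn
  have h1 : q ^ (n + l) < 1 := pow_lt_one₀ hq0.le hq1 (by omega)
  have h2 : th q n l ≤ 1 / (1 - q) := by
    rw [th, div_le_div_iff₀ (mul_pos (by linarith) (by linarith)) (by linarith)]
    have h3 : q * (1 - q ^ l) ≤ 1 - q ^ (n + l) := by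
      have h4 : q ^ (n + l) ≤ q ^ l * q := by
        rw [← pow_succ]
        exact pow_le_pow_of_le_one hq0.le hq1.le (by omega)
      nlinarith
    nlinarith
  have h3 : ∀ r : ℕ, 0 ≤ 1 / (1 - q) - th q n l * q ^ r := by
    intro r
    have h3 : q ^ r ≤ 1 := pow_le_one₀ hq0.le hq1.le
    have h4 : th q n l * q ^ r ≤ th q n l * 1 := mul_le_mul_of_nonneg_left h3 hth
    linarith
  unfold psi
  split_ifs with h
  · exact h3 _
  · exact mul_nonneg (h3 _) (by positivity)

theorem log_AA {d n l K : ℕ} (hd : 2 ≤ d) (hn : 1 ≤ n) (hl : 1 ≤ l) (hK : 1 ≤ K) (m : ℕ) :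
    ∀ t, Real.log (AA d (n + l) n K t m) =
      Real.log K * ((d : ℝ) ^ m * psi (1 / d) n l (t + m) - psi (1 / d) n l t) := by
  have hd' : (2 : ℝ) ≤ d := by exact_mod_cast hd
  have hd0 : (d : ℝ) ≠ 0 := by linarith
  have hq1 : 1 / (d : ℝ) < 1 := by rw [div_lt_one (by linarith)]; linarith
  have hq0 : 0 < 1 / (d : ℝ) := by positivity
  induction m with
  | zero => intro t; simp [AA]
  | succ m ih =>
    intro t
    have h1 : (AA d (n + l) n K (t + 1) m : ℝ) ≠ 0 := by
      have := AA_pos (d := d) (p := n + l) (n := n) hK m (t + 1)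
      exact_mod_cast (by omega : AA d (n + l) n K (t + 1) m ≠ 0)
    have h2 : (w (n + l) n K (t + 1) : ℝ) ≠ 0 := by
      have := w_pos (p := n + l) (n := n) hK (t + 1)
      exact_mod_cast (by omega : w (n + l) n K (t + 1) ≠ 0)
    have h3 : Real.log (w (n + l) n K (t + 1)) =
        (if (t + 1) % (n + l) < n then 1 else 0) * Real.log K := by
      unfold w
      split_ifs <;> simp
    have h4 := psi_rec hq1 hq0 hn hl t
    simp only [AA]
    push_cast
    rw [Real.log_pow, Real.log_mul h2 h1, ih, h3, show t + 1 + m = t + (m + 1) by ring, h4]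
    field_simp
    ring

/-- The exact entropy. -/
theorem cyc_entropy {d n l K k : ℕ} {L : Fin k → ℕ} (hd : 2 ≤ d) (hn : 1 ≤ n) (hl : 1 ≤ l)
    (hK : 1 ≤ K) (hL : ∀ i, L i < n + l)
    (hfib : ∀ t < n + l, (Finset.univ.filter fun i => L i = t).card = w (n + l) n K t) :
    Tendsto (fun m => Real.log (patternCount d (Mc (n + l) L) m) / (Delta d m).ncard) atTop
      (𝓝 ((1 - 1 / (d : ℝ) ^ n) / (1 - 1 / (d : ℝ) ^ (n + l)) * Real.log K)) := by
  have hd' : (2 : ℝ) ≤ d := by exact_mod_cast hd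
  have hd0 : (d : ℝ) ≠ 0 := by linarith
  have hq1 : 1 / (d : ℝ) < 1 := by rw [div_lt_one (by linarith)]; linarith
  have hq0 : 0 < 1 / (d : ℝ) := by positivity
  have hlogK : 0 ≤ Real.log K := Real.log_natCast_nonneg K
  have hp : 0 < n + l := by omega
  set Q : ℝ := 1 / (1 - 1 / (d : ℝ)) - th (1 / d) n l * (1 / (d : ℝ)) ^ (n - 1) with hQ
  -- the value of the limit
  have hval : (1 - 1 / (d : ℝ) ^ n) / (1 - 1 / (d : ℝ) ^ (n + l)) * Real.log K =
      (d - 1) * (Real.log K * Q * (1 / d)) := by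
    have h1 : (1 / (d : ℝ)) ^ (n + l) < 1 := pow_lt_one₀ hq0.le hq1 (by omega)
    have h1' : (1 - (1 / (d : ℝ)) ^ (n + l)) ≠ 0 := by linarith
    have h5 := th_eq hq1 hq0 (n := n) (l := l) hn
    have h6 : th (1 / (d : ℝ)) n l = 1 / (d : ℝ) * (1 - (1 / (d : ℝ)) ^ l) / (1 - 1 / (d : ℝ)) /
      (1 - (1 / (d : ℝ)) ^ (n + l)) := by
      rw [eq_div_iff h1']
      exact h5
    have h7 : (1 / (d : ℝ)) ^ n = (1 / (d : ℝ)) ^ (n - 1) * (1 / (d : ℝ)) := by
      rw [← pow_succ]; congr 1; omega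
    have h8 : (1 / (d : ℝ)) ^ (n + l) = (1 / (d : ℝ)) ^ n * (1 / (d : ℝ)) ^ l := pow_add _ _ _
    have h9 : (1 - 1 / (d : ℝ)) ≠ 0 := by linarith
    rw [← one_div_pow, ← one_div_pow, hQ, h6]
    have h10 : ((d : ℝ) - 1) * (1 / d) = 1 - 1 / d := by field_simp
    have h11 : (d - 1 : ℝ) * (Real.log K * (1 / (1 - 1 / (d : ℝ)) - 1 / (d : ℝ) *
        (1 - (1 / (d : ℝ)) ^ l) / (1 - 1 / (d : ℝ)) /
        (1 - (1 / (d : ℝ)) ^ (n + l)) * (1 / (d : ℝ)) ^ (n - 1)) * (1 / d)) =
        Real.log K * ((1 - 1 / (d : ℝ)) * (1 / (1 - 1 / (d : ℝ)) - 1 / (d : ℝ) *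
        (1 - (1 / (d : ℝ)) ^ l) / (1 - 1 / (d : ℝ)) /
        (1 - (1 / (d : ℝ)) ^ (n + l)) * (1 / (d : ℝ)) ^ (n - 1))) := by
      rw [← h10]; ring
    rw [h11, mul_comm (Real.log K)]
    congr 1
    generalize 1 / (d : ℝ) = q at *
    field_simp
    rw [h7] at h8
    rw [h7, h8]
    ring
  -- the number of patterns
  have hcount : ∀ m, patternCount d (Mc (n + l) L) m = ∑ i, AA d (n + l) n K (L i) m := by
    intro m
    rw [patternCount_eq]
    exact Finset.sum_congr rfl fun i _ => P_eq_AA hp hK hfib m i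
  have hkpos : 0 < k := by
    obtain ⟨i, _⟩ := exists_lev hK hfib hp
    exact i.pos
  have hupper : ∀ m, Real.log (patternCount d (Mc (n + l) L) m) ≤
      Real.log k + Real.log K * Q * (d : ℝ) ^ m := by
    intro m
    have h1 : ∀ i, (AA d (n + l) n K (L i) m : ℝ) ≤ Real.exp (Real.log K * Q * (d : ℝ) ^ m) := by
      intro i
      have hpos : (0 : ℝ) < AA d (n + l) n K (L i) m := by
        exact_mod_cast AA_pos (d := d) (p := n + l) (n := n) hK m (L i)
      rw [← Real.log_le_iff_le_exp hpos, log_AA hd hn hl hK]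
      have h2 := psi_max hq1 hq0 (n := n) (l := l) hn (L i + m)
      have h3 := psi_nonneg hq1 hq0 (n := n) (l := l) hn (L i)
      rw [← hQ] at h2
      have h4 : (d : ℝ) ^ m * psi (1 / d) n l (L i + m) ≤ d ^ m * Q :=
        mul_le_mul_of_nonneg_left h2 (by positivity)
      calc Real.log K * ((d : ℝ) ^ m * psi (1 / d) n l (L i + m) - psi (1 / d) n l (L i))
          ≤ Real.log K * (d ^ m * Q) := mul_le_mul_of_nonneg_left (by linarith) hlogK
        _ = _ := by ring
    have h2 : (patternCount d (Mc (n + l) L) m : ℝ) ≤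
        k * Real.exp (Real.log K * Q * (d : ℝ) ^ m) := by
      rw [hcount]
      push_cast
      calc ∑ i, (AA d (n + l) n K (L i) m : ℝ) ≤
          ∑ _i : Fin k, Real.exp (Real.log K * Q * (d : ℝ) ^ m) := Finset.sum_le_sum fun i _ => h1 i
        _ = _ := by simp
    have h3 : (0 : ℝ) < patternCount d (Mc (n + l) L) m := by
      rw [hcount]
      have : 0 < ∑ i, AA d (n + l) n K (L i) m :=
        Finset.sum_pos (fun i _ => AA_pos (d := d) (p := n + l) (n := n) hK m (L i))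
          ⟨⟨0, hkpos⟩, Finset.mem_univ _⟩
      exact_mod_cast this
    have h4 := Real.log_le_log h3 h2
    have hk : (k : ℝ) ≠ 0 := by exact_mod_cast hkpos.ne'
    rw [Real.log_mul hk (Real.exp_ne_zero _), Real.log_exp] at h4
    exact h4
  have hlower : ∀ m, Real.log K * Q * ((d : ℝ) ^ m - 1) ≤
      Real.log (patternCount d (Mc (n + l) L) m) := by
    intro m
    -- a level `t` with `t + m ≡ n - 1`
    obtain ⟨t, ht, htm⟩ : ∃ t < n + l, (t + m) % (n + l) = n - 1 := by
      refine ⟨(n - 1 + (n + l - m % (n + l))) % (n + l), Nat.mod_lt _ hp, ?_⟩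
      have h1 : m % (n + l) < n + l := Nat.mod_lt _ hp
      rw [Nat.mod_add_mod, ← Nat.add_mod_mod, show n - 1 + (n + l - m % (n + l)) + m % (n + l) =
        n - 1 + (n + l) by omega, Nat.add_mod_right]
      exact Nat.mod_eq_of_lt (by omega)
    obtain ⟨i, hi⟩ := exists_lev hK hfib ht
    have h1 : Real.log (AA d (n + l) n K (L i) m) ≤
        Real.log (patternCount d (Mc (n + l) L) m) := by
      have hpos := AA_pos (d := d) (p := n + l) (n := n) hK m (L i)
      apply Real.log_le_log (by exact_mod_cast hpos)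
      rw [hcount]
      exact_mod_cast Finset.single_le_sum (f := fun i => AA d (n + l) n K (L i) m)
        (fun _ _ => Nat.zero_le _) (Finset.mem_univ i)
    refine le_trans ?_ h1
    rw [log_AA hd hn hl hK, hi]
    have h2 : psi (1 / (d : ℝ)) n l (t + m) = Q := by
      unfold psi
      rw [htm, if_pos (by omega)]
    have h3 := psi_max hq1 hq0 (n := n) (l := l) hn t
    rw [← hQ] at h3
    rw [h2, mul_assoc]
    apply mul_le_mul_of_nonneg_left _ hlogK
    nlinarith
  -- the limit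
  have hε : Tendsto (fun m : ℕ => 1 / ((d : ℝ) ^ (m + 1) - 1)) atTop (𝓝 0) := by
    refine Tendsto.div_atTop tendsto_const_nhds ?_
    refine tendsto_atTop_add_const_right _ _ ?_
    exact (tendsto_pow_atTop_atTop_of_one_lt (show (1:ℝ) < d by linarith)).comp
      (tendsto_add_atTop_nat 1)
  have hden : ∀ m : ℕ, (0 : ℝ) < (d : ℝ) ^ (m + 1) - 1 := by
    intro m
    have : (1 : ℝ) < (d : ℝ) ^ (m + 1) := one_lt_pow₀ (by linarith) (by omega)
    linarith
  rw [hval]
  have hg1 : Tendsto (fun m : ℕ => (d - 1 : ℝ) * (Real.log K * Q * (1 / d * (1 + 1 / ((d : ℝ) ^ (m + 1) - 1)) -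
      1 / ((d : ℝ) ^ (m + 1) - 1)))) atTop (𝓝 ((d - 1) * (Real.log K * Q * (1 / d)))) := by
    have : Tendsto (fun m : ℕ => (d - 1 : ℝ) * (Real.log K * Q * (1 / d * (1 + 1 / ((d : ℝ) ^ (m + 1) - 1)) -
      1 / ((d : ℝ) ^ (m + 1) - 1)))) atTop (𝓝 ((d - 1) * (Real.log K * Q * (1 / d * (1 + 0) - 0)))) :=
      (((hε.const_add 1).const_mul _).sub hε).const_mul _ |>.const_mul _
    simpa using this
  have hg2 : Tendsto (fun m : ℕ => (d - 1 : ℝ) * (Real.log k * (1 / ((d : ℝ) ^ (m + 1) - 1)) +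
      Real.log K * Q * (1 / d * (1 + 1 / ((d : ℝ) ^ (m + 1) - 1))))) atTop
      (𝓝 ((d - 1) * (Real.log K * Q * (1 / d)))) := by
    have : Tendsto (fun m : ℕ => (d - 1 : ℝ) * (Real.log k * (1 / ((d : ℝ) ^ (m + 1) - 1)) +
      Real.log K * Q * (1 / d * (1 + 1 / ((d : ℝ) ^ (m + 1) - 1))))) atTop
      (𝓝 ((d - 1) * (Real.log k * 0 + Real.log K * Q * (1 / d * (1 + 0))))) :=
      ((hε.const_mul _).add (((hε.const_add 1).const_mul _).const_mul _)).const_mul _
    simpa using this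
  refine tendsto_of_tendsto_of_tendsto_of_le_of_le hg1 hg2 ?_ ?_
  · intro m
    have h1 := hlower m
    have h2 := hden m
    simp only
    rw [ncard_Delta hd, div_div_eq_mul_div, le_div_iff₀ h2]
    have h3 : (d - 1 : ℝ) * (Real.log K * Q * (1 / d * (1 + 1 / ((d : ℝ) ^ (m + 1) - 1)) -
      1 / ((d : ℝ) ^ (m + 1) - 1))) * ((d : ℝ) ^ (m + 1) - 1) =
        Real.log K * Q * ((d : ℝ) ^ m - 1) * (d - 1) := by
      field_simp
      ring
    rw [h3]
    exact mul_le_mul_of_nonneg_right h1 (by linarith)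
  · intro m
    have h1 := hupper m
    have h2 := hden m
    simp only
    rw [ncard_Delta hd, div_div_eq_mul_div, div_le_iff₀ h2]
    have h3 : (d - 1 : ℝ) * (Real.log k * (1 / ((d : ℝ) ^ (m + 1) - 1)) +
      Real.log K * Q * (1 / d * (1 + 1 / ((d : ℝ) ^ (m + 1) - 1)))) * ((d : ℝ) ^ (m + 1) - 1) =
        (Real.log k + Real.log K * Q * (d : ℝ) ^ m) * (d - 1) := by
      field_simp
      ring
    rw [h3]
    exact mul_le_mul_of_nonneg_right h1 (by linarith)

end Pool.Agent.KS6_18.TGap
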