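import Pool.Agent.KS6_18.TGap.Core

/-!
# Infinitely many gaps for the recursion

With at most `K` successors per state the largest value of `a i n` is `E n`; every other value is at
most `H n`, which is much smaller.
-/

set_option autoImplicit false

open Filter Topology Finset

namespace Pool.Agent.KS6_18.TGap

variable {α : Type*} [Fintype α] [DecidableEq α]

/-- The growth of the full `(c+1)`-ary tree. -/
def EE (d c : ℕ) : ℕ → ℕ
  | 0 => 1
  | n + 1 => ((c + 1) * EE d c n) ^ d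

/-- The bound of every other value. -/
def HH (d c : ℕ) : ℕ → ℕ
  | 0 => 0
  | n + 1 => (c * EE d c n + HH d c n) ^ d

theorem EE_pos (d c n : ℕ) : 1 ≤ EE d c n := by
  induction n with
  | zero => exact le_rfl
  | succ n ih =>
    simp only [EE]
    apply Nat.one_le_pow
    exact Nat.mul_pos (Nat.succ_pos c) ih

theorem HH_ratio {d c : ℕ} (hd : 1 ≤ d) (hc : (c + 1) ^ d ≤ (c + 2) ^ (d - 1)) (n : ℕ) :
    (c + 2) * HH d c n ≤ EE d c n := by
  obtain ⟨d, rfl⟩ : ∃ e, d = e + 1 := ⟨d - 1, by omega⟩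
  induction n with
  | zero => simp [HH, EE]
  | succ n ih =>
    simp only [HH, EE]
    simp only [Nat.add_sub_cancel] at hc
    have h1 : (c + 2) * (c * EE (d + 1) c n + HH (d + 1) c n) ≤ (c + 1) * ((c + 1) * EE (d + 1) c n) := by
      nlinarith
    have h2 := Nat.pow_le_pow_left h1 (d + 1)
    rw [mul_pow, mul_pow (c + 1)] at h2
    have h3 : (c + 2) ^ (d + 1) * (c * EE (d + 1) c n + HH (d + 1) c n) ^ (d + 1) ≤
        (c + 2) ^ d * ((c + 1) * EE (d + 1) c n) ^ (d + 1) := h2.trans (Nat.mul_le_mul_right _ hc)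
    have h4 : 0 < (c + 2) ^ d := by positivity
    refine Nat.le_of_mul_le_mul_left ?_ h4
    calc (c + 2) ^ d * ((c + 2) * (c * EE (d + 1) c n + HH (d + 1) c n) ^ (d + 1))
        = (c + 2) ^ (d + 1) * (c * EE (d + 1) c n + HH (d + 1) c n) ^ (d + 1) := by ring
      _ ≤ _ := h3

/-- The key inequality. -/
theorem HH_key {d c : ℕ} (hd : 1 ≤ d) (hc : (c + 1) ^ d ≤ (c + 2) ^ (d - 1)) (n : ℕ) :
    (c + 2) ^ d * HH d c (n + 1) ≤ (c + 1) ^ d * EE d c (n + 1) := by
  have h0 := HH_ratio hd hc n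
  simp only [HH, EE]
  rw [← mul_pow, ← mul_pow]
  apply Nat.pow_le_pow_left
  nlinarith

theorem log_EE {d : ℕ} (hd : 2 ≤ d) (c n : ℕ) :
    Real.log (EE d c n) = d * ((d : ℝ) ^ n - 1) / (d - 1) * Real.log (c + 1) := by
  have hd' : (2 : ℝ) ≤ d := by exact_mod_cast hd
  have hd1 : (d : ℝ) - 1 ≠ 0 := by linarith
  induction n with
  | zero => simp [EE]
  | succ n ih =>
    have h1 : (EE d c n : ℝ) ≠ 0 := by
      have := EE_pos d c n
      exact_mod_cast (by omega : EE d c n ≠ 0)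
    simp only [EE]
    push_cast
    rw [Real.log_pow, Real.log_mul (by positivity) h1, ih]
    field_simp
    ring

section main

variable {S : α → Finset α} {a : α → ℕ → ℕ} {d : ℕ}

theorem R_nonempty [Nonempty α] (hS : ∀ i, (S i).Nonempty) (m : ℕ) : (R S m).Nonempty := by
  induction m with
  | zero => exact Finset.univ_nonempty
  | succ m ih =>
    obtain ⟨i, hi⟩ := ih
    obtain ⟨j, hj⟩ := hS i
    exact ⟨j, mem_R_succ.2 ⟨i, hi, hj⟩⟩

omit [Fintype α] in
/-- Either the value is the full one, or it is at most `H n`. -/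
theorem dich_value (h0 : ∀ i, a i 0 = 1)
    (hrec : ∀ i n, a i (n + 1) = (∑ j ∈ S i, a j n) ^ d) {T : Finset α} {c : ℕ}
    (hT : ∀ i ∈ T, S i ⊆ T) (hcard : ∀ i ∈ T, (S i).card ≤ c + 1)
    (hHE : ∀ n, HH d c n ≤ EE d c n) :
    ∀ n, ∀ i ∈ T, a i n = EE d c n ∨ a i n ≤ HH d c n := by
  intro n
  induction n with
  | zero => intro i _; left; rw [h0]; rfl
  | succ n ih =>
    intro i hi
    have hle : ∀ j ∈ S i, a j n ≤ EE d c n := by
      intro j hj
      rcases ih j (hT i hi hj) with h | h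
      · exact h.le
      · exact h.trans (hHE n)
    rcases Nat.lt_or_ge (S i).card (c + 1) with hlt | hge
    · right
      rw [hrec]
      simp only [HH]
      apply Nat.pow_le_pow_left
      calc ∑ j ∈ S i, a j n ≤ (S i).card • EE d c n := Finset.sum_le_card_nsmul _ _ _ hle
        _ = (S i).card * EE d c n := by rw [smul_eq_mul]
        _ ≤ c * EE d c n := Nat.mul_le_mul_right _ (by omega)
        _ ≤ _ := Nat.le_add_right _ _
    · have hcc : (S i).card = c + 1 := le_antisymm (hcard i hi) hge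
      by_cases hall : ∀ j ∈ S i, a j n = EE d c n
      · left
        rw [hrec, Finset.sum_congr rfl hall, Finset.sum_const, hcc, smul_eq_mul]
        rfl
      · right
        push Not at hall
        obtain ⟨j, hj, hne⟩ := hall
        have hjH : a j n ≤ HH d c n := (ih j (hT i hi hj)).resolve_left hne
        rw [hrec]
        simp only [HH]
        apply Nat.pow_le_pow_left
        rw [← Finset.sum_erase_add _ _ hj]
        apply Nat.add_le_add _ hjH
        calc ∑ j ∈ (S i).erase j, a j n ≤ ((S i).erase j).card • EE d c n :=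
              Finset.sum_le_card_nsmul _ _ _ fun l hl => hle l (Finset.mem_of_mem_erase hl)
          _ = c * EE d c n := by
              rw [Finset.card_erase_of_mem hj, hcc, smul_eq_mul, Nat.add_sub_cancel]

/-- An upper bound of the rate from upper bounds of the values of the persistent states. -/
theorem rate_upper_gen [Nonempty α] (hd : 2 ≤ d) (hS : ∀ i, (S i).Nonempty) (h0 : ∀ i, a i 0 = 1)
    (hrec : ∀ i n, a i (n + 1) = (∑ j ∈ S i, a j n) ^ d) {h : ℝ}
    (hlim : Tendsto (fun n => Real.log ((∑ i, a i n : ℕ) : ℝ) / (((d : ℝ) ^ (n + 1) - 1) / (d - 1)))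
      atTop (𝓝 h)) {m₀ : ℕ} (N : ℕ) {Z : ℕ → ℕ} {V : ℝ}
    (hX : ∀ n, ∀ i ∈ R S m₀, a i (N + n) ≤ Z n) (hZp : ∀ n, 1 ≤ Z n)
    (hV : ∀ n, Real.log (Z n) ≤ V / (d - 1) * d ^ (N + n + 1)) :
    h ≤ V := by
  have hd' : (2 : ℝ) ≤ d := by exact_mod_cast hd
  obtain ⟨C, hC, hup⟩ := upper hrec m₀
  set K := Fintype.card α with hK
  have hK1 : 1 ≤ K := Fintype.card_pos
  set L := Real.log ((K * C : ℕ) : ℝ) with hL
  -- the bound
  have hb : ∀ n, Real.log ((∑ i, a i (N + n + m₀) : ℕ) : ℝ) / (((d : ℝ) ^ (N + n + m₀ + 1) - 1) / (d - 1))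
      ≤ V + (L * (d - 1) + V) / ((d : ℝ) ^ (N + n + m₀ + 1) - 1) := by
    intro n
    have hD : (1 : ℝ) < (d : ℝ) ^ (N + n + m₀ + 1) := one_lt_pow₀ (by linarith) (by omega)
    have h1 : ∑ i, a i (N + n + m₀) ≤ K * C * Z n ^ (d ^ m₀) := by
      calc ∑ i, a i (N + n + m₀) ≤ ∑ _i : α, C * Z n ^ (d ^ m₀) := by
            apply Finset.sum_le_sum
            intro i _
            refine hup 0 (N + n) (Z n) ?_ i (Finset.mem_univ i)
            intro j hj
            exact hX _ j (by simpa using hj)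
        _ = _ := by rw [Finset.sum_const, Finset.card_univ, smul_eq_mul, mul_assoc]
    have hpos : 1 ≤ ∑ i, a i (N + n + m₀) := by
      obtain ⟨i⟩ := (inferInstance : Nonempty α)
      exact (pos hS h0 hrec i _).trans
        (Finset.single_le_sum (f := fun j => a j (N + n + m₀)) (fun _ _ => Nat.zero_le _)
        (Finset.mem_univ i))
    have hXp := hZp n
    have h2 : Real.log ((∑ i, a i (N + n + m₀) : ℕ) : ℝ) ≤
        L + (d : ℝ) ^ m₀ * Real.log (Z n) := by
      have h3 : ((∑ i, a i (N + n + m₀) : ℕ) : ℝ) ≤ ((K * C : ℕ) : ℝ) * (Z n : ℝ) ^ (d ^ m₀) := by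
        exact_mod_cast h1
      have hp : (0 : ℝ) < ((∑ i, a i (N + n + m₀) : ℕ) : ℝ) := by exact_mod_cast hpos
      have hKC : ((K * C : ℕ) : ℝ) ≠ 0 := by
        have : 1 ≤ K * C := Nat.one_le_iff_ne_zero.2 (Nat.mul_ne_zero (by omega) (by omega))
        exact_mod_cast (by omega : K * C ≠ 0)
      have hXr : (Z n : ℝ) ^ (d ^ m₀) ≠ 0 := by
        apply pow_ne_zero
        exact_mod_cast (by omega : Z n ≠ 0)
      have := Real.log_le_log hp h3
      rw [Real.log_mul hKC hXr, Real.log_pow, ← hL] at this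
      push_cast at this ⊢
      exact this
    have h4 := hV n
    have h5 : Real.log ((∑ i, a i (N + n + m₀) : ℕ) : ℝ) * (d - 1) ≤
        L * (d - 1) + V * d ^ (N + n + m₀ + 1) := by
      have hd1 : (0 : ℝ) < d - 1 := by linarith
      calc Real.log ((∑ i, a i (N + n + m₀) : ℕ) : ℝ) * (d - 1)
          ≤ (L + (d : ℝ) ^ m₀ * (V / (d - 1) * d ^ (N + n + 1))) * (d - 1) := by
            gcongr
            exact h2.trans (by gcongr)
        _ = _ := by
            field_simp
            ring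
    rw [div_div_eq_mul_div, div_le_iff₀ (by linarith)]
    have h6 : (V + (L * (d - 1) + V) / ((d : ℝ) ^ (N + n + m₀ + 1) - 1)) *
        ((d : ℝ) ^ (N + n + m₀ + 1) - 1) = L * (d - 1) + V * d ^ (N + n + m₀ + 1) := by
      have : (d : ℝ) ^ (N + n + m₀ + 1) - 1 ≠ 0 := by linarith
      rw [add_mul, div_mul_cancel₀ _ this]
      ring
    rw [h6]
    exact h5
  have hlim' : Tendsto (fun n => Real.log ((∑ i, a i (N + n + m₀) : ℕ) : ℝ) /
      (((d : ℝ) ^ (N + n + m₀ + 1) - 1) / (d - 1))) atTop (𝓝 h) := by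
    have := hlim.comp (tendsto_add_atTop_nat (N + m₀))
    refine this.congr fun n => ?_
    simp only [Function.comp_def]
    rw [show n + (N + m₀) = N + n + m₀ by ring]
  have hg : Tendsto (fun n : ℕ => V + (L * (d - 1) + V) / ((d : ℝ) ^ (N + n + m₀ + 1) - 1))
      atTop (𝓝 (V + 0)) := by
    refine tendsto_const_nhds.add ?_
    refine Tendsto.div_atTop tendsto_const_nhds ?_
    refine tendsto_atTop_add_const_right _ _ ?_
    have := (tendsto_pow_atTop_atTop_of_one_lt (show (1:ℝ) < d by linarith)).comp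
      (tendsto_add_atTop_nat (N + m₀ + 1))
    refine this.congr fun n => ?_
    simp only [Function.comp_def]
    rw [show n + (N + m₀ + 1) = N + n + m₀ + 1 by ring]
  rw [add_zero] at hg
  exact le_of_tendsto_of_tendsto' hlim' hg hb

/-- Growth from a bound `B` with a factor `c + 1` at each level. -/
def ZZ (d c B : ℕ) : ℕ → ℕ
  | 0 => B
  | n + 1 => ((c + 1) * ZZ d c B n) ^ d

theorem ZZ_pos {d c B : ℕ} (hB : 1 ≤ B) (n : ℕ) : 1 ≤ ZZ d c B n := by
  induction n with
  | zero => exact hB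
  | succ n ih =>
    simp only [ZZ]
    apply Nat.one_le_pow
    exact Nat.mul_pos (Nat.succ_pos c) ih

theorem log_ZZ {d : ℕ} (hd : 2 ≤ d) (c : ℕ) {B : ℕ} (hB : 1 ≤ B) (n : ℕ) :
    Real.log (ZZ d c B n) + d * Real.log (c + 1) / (d - 1) =
      (d : ℝ) ^ n * (Real.log B + d * Real.log (c + 1) / (d - 1)) := by
  have hd' : (2 : ℝ) ≤ d := by exact_mod_cast hd
  have hd1 : (d : ℝ) - 1 ≠ 0 := by linarith
  induction n with
  | zero => simp [ZZ]
  | succ n ih =>
    have h1 : (ZZ d c B n : ℝ) ≠ 0 := by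
      have := ZZ_pos (d := d) (c := c) hB n
      exact_mod_cast (by omega : ZZ d c B n ≠ 0)
    simp only [ZZ]
    push_cast
    rw [Real.log_pow, Real.log_mul (by positivity) h1, pow_succ']
    have h2 : Real.log (ZZ d c B n) = (d : ℝ) ^ n * (Real.log B + d * Real.log (c + 1) / (d - 1)) -
      d * Real.log (c + 1) / (d - 1) := by linarith
    rw [h2]
    field_simp
    ring

/-- The rate of a system in which every persistent state has at most `c + 1` successors and a value
at most `B` at time `N`. -/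
theorem rate_upper_bd [Nonempty α] (hd : 2 ≤ d) (hS : ∀ i, (S i).Nonempty) (h0 : ∀ i, a i 0 = 1)
    (hrec : ∀ i n, a i (n + 1) = (∑ j ∈ S i, a j n) ^ d) {h : ℝ}
    (hlim : Tendsto (fun n => Real.log ((∑ i, a i n : ℕ) : ℝ) / (((d : ℝ) ^ (n + 1) - 1) / (d - 1)))
      atTop (𝓝 h)) {m₀ c B : ℕ} (hB : 1 ≤ B) (N : ℕ)
    (hT : ∀ i ∈ R S m₀, S i ⊆ R S m₀) (hcard : ∀ i ∈ R S m₀, (S i).card ≤ c + 1)
    (haB : ∀ i ∈ R S m₀, a i N ≤ B) :
    h ≤ ((d - 1) * Real.log B + d * Real.log (c + 1)) / d ^ (N + 1) := by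
  have hd' : (2 : ℝ) ≤ d := by exact_mod_cast hd
  have hd1 : (d : ℝ) - 1 ≠ 0 := by linarith
  have hd0 : (d : ℝ) ≠ 0 := by linarith
  refine rate_upper_gen hd hS h0 hrec hlim (m₀ := m₀) N (Z := ZZ d c B) ?_ (ZZ_pos hB) ?_
  · intro n
    induction n with
    | zero => exact haB
    | succ n ih =>
      intro i hi
      rw [show N + (n + 1) = N + n + 1 by ring, hrec]
      simp only [ZZ]
      apply Nat.pow_le_pow_left
      calc ∑ j ∈ S i, a j (N + n) ≤ (S i).card • ZZ d c B n :=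
            Finset.sum_le_card_nsmul _ _ _ fun j hj => ih j (hT i hi hj)
        _ = (S i).card * ZZ d c B n := by rw [smul_eq_mul]
        _ ≤ _ := Nat.mul_le_mul_right _ (hcard i hi)
  · intro n
    have h1 := log_ZZ hd c hB n
    have h2 : 0 ≤ d * Real.log (c + 1) / ((d : ℝ) - 1) := by
      apply div_nonneg
      · have := Real.log_nonneg (show (1:ℝ) ≤ c + 1 by
          have : (0 : ℝ) ≤ c := Nat.cast_nonneg c
          linarith)
        positivity
      · linarith
    have h3 : (d : ℝ) ^ n * (Real.log B + d * Real.log (c + 1) / (d - 1)) =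
        ((d - 1) * Real.log B + d * Real.log (c + 1)) / d ^ (N + 1) / (d - 1) * d ^ (N + n + 1) := by
      field_simp
      ring
    linarith

/-- **The gaps.** If `(c+1)^d ≤ (c+2)^(d-1)`, no rate lies between
`((d-1) log H_n + d log (c+1)) / d^(n+1)` and `(1 - 1/d^n) log (c+1)`. -/
theorem gap_many [Nonempty α] (hd : 2 ≤ d) (hS : ∀ i, (S i).Nonempty) (h0 : ∀ i, a i 0 = 1)
    (hrec : ∀ i n, a i (n + 1) = (∑ j ∈ S i, a j n) ^ d) {h : ℝ}
    (hlim : Tendsto (fun n => Real.log ((∑ i, a i n : ℕ) : ℝ) / (((d : ℝ) ^ (n + 1) - 1) / (d - 1)))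
      atTop (𝓝 h)) {c : ℕ} (hc : (c + 1) ^ d ≤ (c + 2) ^ (d - 1)) {n : ℕ} (hn : 1 ≤ n) :
    h ≤ ((d - 1) * Real.log (HH d c n) + d * Real.log (c + 1)) / d ^ (n + 1) ∨
      (1 - 1 / (d : ℝ) ^ n) * Real.log (c + 1) ≤ h := by
  have hd' : (2 : ℝ) ≤ d := by exact_mod_cast hd
  have hd1 : (d : ℝ) - 1 ≠ 0 := by linarith
  have hd0 : (d : ℝ) ≠ 0 := by linarith
  have hc0 : (0 : ℝ) ≤ c := Nat.cast_nonneg c
  have hlog1 : 0 ≤ Real.log ((c : ℝ) + 1) := Real.log_nonneg (by linarith)
  obtain ⟨m₀, hm₀⟩ := R_stab S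
  have hanti : Antitone (R S) := antitone_nat_of_succ_le (R_succ_subset S)
  have hall : ∀ i ∈ R S m₀, ∀ m, i ∈ R S m := by
    intro i hi m
    rcases le_total m m₀ with h | h
    · exact hanti h hi
    · rw [hm₀ m h]; exact hi
  have hT : ∀ i ∈ R S m₀, S i ⊆ R S m₀ := by
    intro i hi j hj
    rw [← hm₀ (m₀ + 1) (Nat.le_succ _)]
    exact mem_R_succ.2 ⟨i, hi, hj⟩
  by_cases h3 : ∃ i ∈ R S m₀, c + 2 ≤ (S i).card
  · right
    obtain ⟨i, hi, hcd⟩ := h3
    have h1 := rate_lower hd hS h0 hrec hlim (hall i hi) 1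
    have h2 : ((c : ℝ) + 2) ^ d ≤ a i 1 := by
      have : (c + 2) ^ d ≤ a i 1 := by
        rw [hrec, Finset.sum_congr rfl (fun j _ => h0 j)]
        simp only [Finset.sum_const, smul_eq_mul, mul_one]
        exact Nat.pow_le_pow_left hcd d
      exact_mod_cast this
    have h4 : (d : ℝ) * Real.log (c + 2) ≤ Real.log (a i 1) := by
      rw [← Real.log_pow]
      exact Real.log_le_log (by positivity) h2
    have h5 : (d : ℝ) * Real.log (c + 1) ≤ (d - 1) * Real.log (c + 2) := by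
      have h6 : ((c : ℝ) + 1) ^ d ≤ ((c : ℝ) + 2) ^ (d - 1) := by exact_mod_cast hc
      have := Real.log_le_log (by positivity) h6
      rw [Real.log_pow, Real.log_pow, Nat.cast_sub (by omega)] at this
      simpa using this
    have h6 : (1 - 1 / (d : ℝ) ^ n) * Real.log (c + 1) ≤ Real.log (c + 1) := by
      have : 0 ≤ 1 / (d : ℝ) ^ n := by positivity
      nlinarith
    refine h6.trans (le_trans ?_ h1)
    have h7 : (0 : ℝ) ≤ (d - 1) / d ^ (1 + 1) := div_nonneg (by linarith) (by positivity)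
    refine le_trans ?_ (mul_le_mul_of_nonneg_left h4 h7)
    have h8 : ((d : ℝ) - 1) / d ^ (1 + 1) * (d * Real.log (c + 2)) =
        ((d - 1) * Real.log (c + 2)) / d := by
      field_simp
    rw [h8, le_div_iff₀ (by linarith)]
    linarith
  push Not at h3
  have hcard : ∀ i ∈ R S m₀, (S i).card ≤ c + 1 := fun i hi => by have := h3 i hi; omega
  have hHE : ∀ n, HH d c n ≤ EE d c n := fun n =>
    le_trans (Nat.le_mul_of_pos_left _ (by omega)) (HH_ratio (by omega) hc n)
  have hdv := dich_value h0 hrec hT hcard hHE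
  by_cases hex : ∃ i ∈ R S m₀, a i n = EE d c n
  · right
    obtain ⟨i, hi, hin⟩ := hex
    have h1 := rate_lower hd hS h0 hrec hlim (hall i hi) n
    refine le_trans (le_of_eq ?_) h1
    rw [hin, log_EE hd]
    field_simp
    ring
  · left
    push Not at hex
    obtain ⟨n, rfl⟩ : ∃ n', n = n' + 1 := ⟨n - 1, by omega⟩
    have hbd : ∀ i ∈ R S m₀, a i (n + 1) ≤ HH d c (n + 1) := fun i hi =>
      (hdv (n + 1) i hi).resolve_left (hex i hi)
    -- there is a persistent state
    have hneT : (R S m₀).Nonempty := R_nonempty hS m₀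
    obtain ⟨i₀, hi₀⟩ := hneT
    have hH1 : 1 ≤ HH d c (n + 1) := (pos hS h0 hrec i₀ (n + 1)).trans (hbd i₀ hi₀)
    exact rate_upper_bd hd hS h0 hrec hlim hH1 (n + 1) hT hcard hbd

end main

/-- The explicit upper bound of the left endpoint. -/
theorem left_le {d c : ℕ} (hd : 2 ≤ d) (hc1 : 1 ≤ c) (hc : (c + 1) ^ d ≤ (c + 2) ^ (d - 1)) {n : ℕ}
    (hn : 1 ≤ n) :
    ((d - 1) * Real.log (HH d c n) + d * Real.log (c + 1)) / (d : ℝ) ^ (n + 1) ≤
      Real.log (c + 1) - (d - 1) / d ^ n * (Real.log (c + 2) - Real.log (c + 1)) := by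
  have hd' : (2 : ℝ) ≤ d := by exact_mod_cast hd
  have hd1 : (d : ℝ) - 1 ≠ 0 := by linarith
  have hd0 : (d : ℝ) ≠ 0 := by linarith
  have hc0 : (0 : ℝ) ≤ c := Nat.cast_nonneg c
  obtain ⟨n, rfl⟩ : ∃ n', n = n' + 1 := ⟨n - 1, by omega⟩
  have hH1 : 1 ≤ HH d c (n + 1) := by
    simp only [HH]
    apply Nat.one_le_pow
    have := Nat.mul_pos hc1 (EE_pos d c n)
    omega
  have hHr : (0 : ℝ) < HH d c (n + 1) := by exact_mod_cast hH1
  have hEr : (0 : ℝ) < EE d c (n + 1) := by exact_mod_cast EE_pos d c (n + 1)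
  have h2 : (d : ℝ) * Real.log (c + 2) + Real.log (HH d c (n + 1)) ≤
      d * Real.log (c + 1) + Real.log (EE d c (n + 1)) := by
    have h3 : ((c : ℝ) + 2) ^ d * HH d c (n + 1) ≤ ((c : ℝ) + 1) ^ d * EE d c (n + 1) := by
      exact_mod_cast HH_key (by omega) hc n
    have := Real.log_le_log (by positivity) h3
    rw [Real.log_mul (by positivity) hHr.ne', Real.log_mul (by positivity) hEr.ne',
      Real.log_pow, Real.log_pow] at this
    exact this
  rw [log_EE hd] at h2
  rw [div_le_iff₀ (by positivity)]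
  have h4 : (d - 1 : ℝ) * Real.log (HH d c (n + 1)) ≤ (d - 1) * (d * Real.log (c + 1) +
      d * ((d : ℝ) ^ (n + 1) - 1) / (d - 1) * Real.log (c + 1) - d * Real.log (c + 2)) := by
    apply mul_le_mul_of_nonneg_left _ (by linarith)
    linarith
  have h5 : (Real.log (c + 1) - (d - 1) / d ^ (n + 1) * (Real.log (c + 2) - Real.log (c + 1))) *
      (d : ℝ) ^ (n + 1 + 1) = d ^ (n + 1 + 1) * Real.log (c + 1) -
        (d - 1) * d * (Real.log (c + 2) - Real.log (c + 1)) := by
    field_simp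
    ring
  have h6 : (d - 1 : ℝ) * (d * Real.log (c + 1) +
      d * ((d : ℝ) ^ (n + 1) - 1) / (d - 1) * Real.log (c + 1) - d * Real.log (c + 2)) =
      (d - 1) * d * Real.log (c + 1) + (d ^ (n + 1 + 1) - d) * Real.log (c + 1) -
      (d - 1) * d * Real.log (c + 2) := by
    field_simp
    ring
  rw [h5]
  rw [h6] at h4
  linarith

/-- The explicit lower bound of the left endpoint. -/
theorem le_left {d c : ℕ} (hd : 2 ≤ d) (hc1 : 1 ≤ c) {n : ℕ} (hn : 1 ≤ n) :
    Real.log (c + 1) - (d - 1) / d ^ n * (Real.log (c + 1) - Real.log c) ≤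
    ((d - 1) * Real.log (HH d c n) + d * Real.log (c + 1)) / (d : ℝ) ^ (n + 1) := by
  have hd' : (2 : ℝ) ≤ d := by exact_mod_cast hd
  have hd1 : (d : ℝ) - 1 ≠ 0 := by linarith
  have hd0 : (d : ℝ) ≠ 0 := by linarith
  have hc0 : (1 : ℝ) ≤ c := by exact_mod_cast hc1
  obtain ⟨n, rfl⟩ : ∃ n', n = n' + 1 := ⟨n - 1, by omega⟩
  have hH1 : 1 ≤ HH d c (n + 1) := by
    simp only [HH]
    apply Nat.one_le_pow
    have := Nat.mul_pos hc1 (EE_pos d c n)
    omega
  have hHr : (0 : ℝ) < HH d c (n + 1) := by exact_mod_cast hH1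
  have hEr : (0 : ℝ) < EE d c (n + 1) := by exact_mod_cast EE_pos d c (n + 1)
  have h2 : d * Real.log c + Real.log (EE d c (n + 1)) ≤
      (d : ℝ) * Real.log (c + 1) + Real.log (HH d c (n + 1)) := by
    have h3 : (c : ℝ) ^ d * EE d c (n + 1) ≤ ((c : ℝ) + 1) ^ d * HH d c (n + 1) := by
      have : c ^ d * EE d c (n + 1) ≤ (c + 1) ^ d * HH d c (n + 1) := by
        simp only [HH, EE]
        rw [← mul_pow, ← mul_pow]
        apply Nat.pow_le_pow_left
        nlinarith [Nat.zero_le (HH d c n)]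
      exact_mod_cast this
    have := Real.log_le_log (by positivity) h3
    rw [Real.log_mul (by positivity) hHr.ne', Real.log_mul (by positivity) hEr.ne',
      Real.log_pow, Real.log_pow] at this
    exact this
  rw [log_EE hd] at h2
  rw [le_div_iff₀ (by positivity)]
  have h4 : (d - 1 : ℝ) * (d * Real.log c +
      d * ((d : ℝ) ^ (n + 1) - 1) / (d - 1) * Real.log (c + 1) - d * Real.log (c + 1)) ≤
      (d - 1 : ℝ) * Real.log (HH d c (n + 1)) := by
    apply mul_le_mul_of_nonneg_left _ (by linarith)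
    linarith
  have h5 : (Real.log (c + 1) - (d - 1) / d ^ (n + 1) * (Real.log (c + 1) - Real.log c)) *
      (d : ℝ) ^ (n + 1 + 1) = d ^ (n + 1 + 1) * Real.log (c + 1) -
        (d - 1) * d * (Real.log (c + 1) - Real.log c) := by
    field_simp
    ring
  have h6 : (d - 1 : ℝ) * (d * Real.log c +
      d * ((d : ℝ) ^ (n + 1) - 1) / (d - 1) * Real.log (c + 1) - d * Real.log (c + 1)) =
      (d - 1) * d * Real.log c + (d ^ (n + 1 + 1) - d) * Real.log (c + 1) -
      (d - 1) * d * Real.log (c + 1) := by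
    field_simp
    ring
  rw [h5]
  rw [h6] at h4
  linarith

end Pool.Agent.KS6_18.TGap
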