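import Pool.Agent.KS6_18.TGap.Shift
import Pool.Agent.KS6_18.TGap.Many

/-!
# Infinitely many gaps for hom Markov tree-shifts
-/

set_option autoImplicit false

open Filter Topology Finset

namespace Pool.Agent.KS6_18.TGap

variable {d k : ℕ} {M : Matrix (Fin k) (Fin k) ℕ}

/-- The gaps for the entropies of hom Markov tree-shifts. -/
theorem entropy_gap_many (hd : 2 ≤ d) (hne : (TreeShift d M).Nonempty) {h : ℝ}
    (hlim : Tendsto (fun n => Real.log (patternCount d M n) / (Delta d n).ncard) atTop (𝓝 h))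
    {c : ℕ} (hc : (c + 1) ^ d ≤ (c + 2) ^ (d - 1)) {n : ℕ} (hn : 1 ≤ n) :
    h ≤ ((d - 1) * Real.log (HH d c n) + d * Real.log (c + 1)) / d ^ (n + 1) ∨
      (1 - 1 / (d : ℝ) ^ n) * Real.log (c + 1) ≤ h := by
  classical
  set S : Occ d M → Finset (Occ d M) := fun i => Finset.univ.filter fun j => M i j = 1 with hSdef
  set a : Occ d M → ℕ → ℕ := fun i n => (P d M i.1 n).ncard with ha
  have hne' : Nonempty (Occ d M) := by
    obtain ⟨t, ht⟩ := hne
    exact ⟨⟨t [], t, ht, rfl⟩⟩
  have hS : ∀ i, (S i).Nonempty := by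
    rintro ⟨i, t, ht, hi⟩
    have c : Fin d := ⟨0, by omega⟩
    refine ⟨⟨t [c], _, sub_mem ht c, rfl⟩, ?_⟩
    simp only [hSdef, Finset.mem_filter, Finset.mem_univ, true_and]
    rw [← hi]
    exact ht [] c
  have hsum : ∀ (s : Finset (Fin k)) (n : ℕ), ∑ j ∈ s, (P d M j n).ncard =
      ∑ j ∈ (Finset.univ.filter fun j : Occ d M => j.1 ∈ s), a j n := by
    intro s n
    have h1 : ∑ j ∈ s, (P d M j n).ncard = ∑ j ∈ s.filter (fun j => j ∈ Occ d M), (P d M j n).ncard := by
      symm
      apply Finset.sum_filter_of_ne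
      intro j _ hj
      by_contra hcon
      exact hj (P_eq_zero hcon n)
    rw [h1]
    refine Finset.sum_bij' (fun j hj => ⟨j, (Finset.mem_filter.1 hj).2⟩) (fun j _ => j.1) ?_ ?_ ?_ ?_ ?_
    · intro j hj
      simp only [Finset.mem_filter, Finset.mem_univ, true_and] at hj ⊢
      exact hj.1
    · intro j hj
      simp only [Finset.mem_filter, Finset.mem_univ, true_and] at hj ⊢
      exact ⟨hj, j.2⟩
    · intro j hj; rfl
    · intro j hj; rfl
    · intro j hj; rfl
  refine gap_many (S := S) (a := a) hd hS (fun i => P_zero_of_mem i.2) ?_ ?_ hc hn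
  · intro i n
    simp only [ha]
    rw [ncard_P_succ, hsum]
    congr 1
    apply Finset.sum_congr _ (fun _ _ => rfl)
    ext j
    simp [hSdef, succ]
  · refine hlim.congr fun n => ?_
    rw [ncard_Delta hd, patternCount_eq, hsum]
    simp

end Pool.Agent.KS6_18.TGap
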